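import Mathlib

/-!
Group theory for MP_5ee2d0: powers of elements which commute modulo a finite normal subgroup
commute, and commuting elements give a homomorphism from `ℤ^r`.
-/

namespace Pool.Agent.H83.HN

open scoped commutatorElement IsMulCommutative

/-- If `x` commutes with the commutator of `x` and `y`, then the commutator of `x ^ m` and `y` is
the `m`-th power. -/
lemma comm_pow {G : Type*} [Group G] (x y : G) (hx : Commute x ⁅x, y⁆) (m : ℕ) :
    ⁅x ^ m, y⁆ = ⁅x, y⁆ ^ m := by
  have h1 : x * y = ⁅x, y⁆ * y * x := by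
    simp [commutatorElement_def, mul_assoc]
  have key : ∀ m : ℕ, x ^ m * y = ⁅x, y⁆ ^ m * y * x ^ m := by
    intro m
    induction m with
    | zero => simp
    | succ m ih =>
      calc x ^ (m + 1) * y = x * (x ^ m * y) := by rw [pow_succ', mul_assoc]
        _ = x * (⁅x, y⁆ ^ m * y * x ^ m) := by rw [ih]
        _ = (x * ⁅x, y⁆ ^ m) * y * x ^ m := by simp only [mul_assoc]
        _ = (⁅x, y⁆ ^ m * x) * y * x ^ m := by rw [(hx.pow_right m).eq]
        _ = ⁅x, y⁆ ^ m * (x * y) * x ^ m := by simp only [mul_assoc]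
        _ = ⁅x, y⁆ ^ m * (⁅x, y⁆ * y * x) * x ^ m := by rw [h1]
        _ = (⁅x, y⁆ ^ m * ⁅x, y⁆) * y * (x * x ^ m) := by simp only [mul_assoc]
        _ = ⁅x, y⁆ ^ (m + 1) * y * x ^ (m + 1) := by rw [← pow_succ, ← pow_succ']
  rw [commutatorElement_def, key m]
  group

/-- The centraliser of a finite normal subgroup has finite index. -/
lemma centralizer_index {G : Type*} [Group G] (N : Subgroup G) [N.Normal] (hN : Finite N) :
    (Subgroup.centralizer (N : Set G)).index ≠ 0 := by
  have : Finite (MulAut N) := by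
    exact Finite.of_injective (fun e : MulAut N => (e : N → N)) (fun a b h => by
      ext x
      have := congrFun h x
      exact congrArg _ this)
  have hle : (MulAut.conjNormal (H := N)).ker ≤ Subgroup.centralizer (N : Set G) := by
    intro g hg
    rw [Subgroup.mem_centralizer_iff]
    intro n hn
    have h1 : MulAut.conjNormal (H := N) g = 1 := hg
    have h2 : ((MulAut.conjNormal (H := N) g ⟨n, hn⟩ : N) : G) = n := by rw [h1]; rfl
    rw [MulAut.conjNormal_apply] at h2
    simp only at h2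
    calc n * g = (g * n * g⁻¹) * g := by rw [h2]
      _ = g * n := by group
  have hfi : (MulAut.conjNormal (H := N)).ker.FiniteIndex := inferInstance
  have := hfi
  exact (Subgroup.finiteIndex_of_le hle).index_ne_zero

/-- Elements which commute modulo a finite normal subgroup have commuting powers. -/
theorem commuting_powers {G : Type*} [Group G] (K : Subgroup G) [K.Normal]
    (hK : (K : Set G).Finite) {r : ℕ} (g : Fin r → G)
    (hc : ∀ i j, g i * g j * (g i)⁻¹ * (g j)⁻¹ ∈ K) :
    ∃ m : ℕ, 0 < m ∧ ∀ i j, Commute (g i ^ m) (g j ^ m) := by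
  have hfin : Finite K := hK
  have hC := centralizer_index K hfin
  set a : ℕ := ((Subgroup.centralizer (K : Set G)).index).factorial with ha
  have ha0 : 0 < a := Nat.factorial_pos _
  have hga : ∀ x : G, x ^ a ∈ Subgroup.centralizer (K : Set G) := fun x =>
    Subgroup.pow_mem_of_index_ne_zero_of_dvd hC _ (fun m h1 h2 => Nat.dvd_factorial h1 h2)
  set n : ℕ := Nat.card K with hn
  have hn0 : 0 < n := Nat.card_pos
  refine ⟨a * n, by positivity, fun i j => ?_⟩
  -- commutators of powers lie in `K`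
  have hmem : ⁅g i ^ a, g j ^ a⁆ ∈ K := by
    have h1 : Commute (QuotientGroup.mk' K (g i)) (QuotientGroup.mk' K (g j)) := by
      have h2 : QuotientGroup.mk' K (g i * g j * (g i)⁻¹ * (g j)⁻¹) = 1 :=
        (QuotientGroup.eq_one_iff _).2 (hc i j)
      have h3 : ⁅QuotientGroup.mk' K (g i), QuotientGroup.mk' K (g j)⁆ = 1 := by
        rw [commutatorElement_def, ← map_inv, ← map_inv, ← map_mul, ← map_mul, ← map_mul]
        exact h2
      exact commutatorElement_eq_one_iff_mul_comm.1 h3
    have h4 : Commute (QuotientGroup.mk' K (g i ^ a)) (QuotientGroup.mk' K (g j ^ a)) := by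
      rw [map_pow, map_pow]
      exact h1.pow_pow a a
    have h5 : QuotientGroup.mk' K ⁅g i ^ a, g j ^ a⁆ = 1 := by
      rw [map_commutatorElement]
      exact commutatorElement_eq_one_iff_mul_comm.2 h4
    exact (QuotientGroup.eq_one_iff _).1 h5
  have hcom : Commute (g i ^ a) ⁅g i ^ a, g j ^ a⁆ :=
    ((Subgroup.mem_centralizer_iff.1 (hga (g i))) _ hmem).symm
  have hpow : ⁅g i ^ a, g j ^ a⁆ ^ n = 1 := by
    have h1 : (⟨_, hmem⟩ : K) ^ n = 1 := pow_card_eq_one'
    have h2 : (((⟨_, hmem⟩ : K) ^ n : K) : G) = 1 := by rw [h1]; rfl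
    rw [Subgroup.coe_pow] at h2
    exact h2
  have h3 : ⁅(g i ^ a) ^ n, g j ^ a⁆ = 1 := by rw [comm_pow _ _ hcom, hpow]
  have h4 : Commute ((g i ^ a) ^ n) (g j ^ a) := commutatorElement_eq_one_iff_mul_comm.1 h3
  rw [pow_mul, pow_mul]
  exact h4.pow_right n

/-- Commuting elements give a homomorphism from `ℤ^r`. -/
theorem hom_of_commuting {G : Type*} [Group G] {r : ℕ} (g : Fin r → G)
    (hg : ∀ i j, Commute (g i) (g j)) :
    ∃ ρ : (Fin r → ℤ) → G, ρ 0 = 1 ∧ (∀ m n, ρ (m + n) = ρ m * ρ n) ∧
      ∀ i, ρ (Pi.single i 1) = g i := by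
  classical
  let H : Subgroup G := Subgroup.closure (Set.range g)
  have hH : IsMulCommutative H := Subgroup.isMulCommutative_closure (by
    rintro _ ⟨i, rfl⟩ _ ⟨j, rfl⟩
    exact hg i j)
  let y : Fin r → H := fun i => ⟨g i, Subgroup.subset_closure ⟨i, rfl⟩⟩
  refine ⟨fun n => ((∏ i, y i ^ (n i) : H) : G), by simp, fun m n => ?_, fun i => ?_⟩
  · have h1 : (∏ i, y i ^ ((m + n) i)) = (∏ i, y i ^ (m i)) * ∏ i, y i ^ (n i) := by
      rw [← Finset.prod_mul_distrib]
      refine Finset.prod_congr rfl fun i _ => ?_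
      rw [Pi.add_apply, zpow_add]
    show ((∏ i, y i ^ ((m + n) i) : H) : G) = _
    rw [h1, Subgroup.coe_mul]
  · have h1 : (∏ l, y l ^ ((Pi.single i 1 : Fin r → ℤ) l)) = y i := by
      rw [Finset.prod_eq_single i]
      · simp
      · intro b _ hb
        simp [hb]
      · simp
    show ((∏ l, y l ^ ((Pi.single i 1 : Fin r → ℤ) l) : H) : G) = _
    rw [h1]

end Pool.Agent.H83.HN
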