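import Mathlib

/-!
# Hyperkaehler manifolds of dimension `2n`: the published facts about one projective manifold

All manifolds are marked: `Lam` is the lattice `H^2(Y, Z)`, `q` the Beauville-Bogomolov form. `P` is
the set `Y(C)` of complex points with the Zariski topology, and a section of a line bundle is written
as a function on `P`: in the fibre of every line bundle (of a basis of the free group
`Pic Y = NS Y`, the others by tensor products) over every point a non zero vector is chosen, with no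
condition.  Classes outside `NS Y` have no sections (`Sec x = 0`).
-/

namespace Pool.Agent.H83.HN

open scoped BigOperators

/-- `W` is an irreducible component of the (closed) set `Z`. -/
def IsComp {P : Type} [TopologicalSpace P] (Z W : Set P) : Prop :=
  IsIrreducible W ∧ W ⊆ Z ∧ ∀ W', IsIrreducible W' → W' ⊆ Z → W ⊆ W' → W' = W

/-- GEOMETRY OF ONE projective hyperkaehler manifold `Y` of dimension `2n`, marked by
`Lam = H^2(Y, Z)`. -/
structure Manifold (n : ℕ) (Lam : Type) [AddCommGroup Lam] (q : Lam → Lam → ℤ) where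
  /-- the Neron-Severi group, the ample, the nef, the semiample classes. -/
  NS : AddSubgroup Lam
  Ample : Set Lam
  Nef : Set Lam
  Semiample : Set Lam
  ample_nef : Ample ⊆ Nef
  nef_NS : Nef ⊆ NS
  nef_zero : (0 : Lam) ∈ Nef
  nef_add : ∀ x ∈ Nef, ∀ y ∈ Nef, x + y ∈ Nef
  ample_add : ∀ x ∈ Ample, ∀ y ∈ Nef, x + y ∈ Ample
  exists_ample : ∃ a, a ∈ Ample
  ample_dom : ∀ a ∈ Ample, ∀ x ∈ NS, ∃ m : ℕ, 0 < m ∧ m • a + x ∈ Ample
  nef_limit : ∀ a ∈ Ample, ∀ x ∈ NS, (∀ m : ℕ, a + m • x ∈ Ample) → x ∈ Nef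
  nef_q : ∀ x ∈ Nef, 0 ≤ q x x
  ample_q : ∀ a ∈ Ample, 0 < q a a
  ample_nef_q : ∀ a ∈ Ample, ∀ x ∈ Nef, x ≠ 0 → 0 < q a x
  semiample_zero : (0 : Lam) ∈ Semiample
  /-- base point free theorem (`x` nef, `q(x) > 0`, i.e. `x^(2n) > 0`, by Fujiki's relation). -/
  bpf : ∀ x ∈ Nef, 0 < q x x → x ∈ Semiample
  /-- the points, the sections of the line bundle of class `x`. -/
  P : Type
  [top : TopologicalSpace P]
  [irr : IrreducibleSpace P]
  [t1 : T1Space P]
  Sec : Lam → Submodule ℂ (P → ℂ)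
  zero_closed : ∀ x, ∀ s ∈ Sec x, IsClosed {y | s y = 0}
  sec_mul : ∀ x y, ∀ s ∈ Sec x, ∀ t ∈ Sec y, s * t ∈ Sec (x + y)
  sec_fin : ∀ x, Module.Finite ℂ (Sec x)
  sec_zero : Module.finrank ℂ (Sec 0) = 1
  /-- RIEMANN-ROCH (Fujiki, Huybrechts) and Kodaira vanishing: `h^0(x)` is a polynomial of degree
  `n` in `q(x)`, with leading coefficient `c_X / (2n)!`. -/
  rr : Polynomial ℚ
  rr_deg : rr.natDegree = n
  rr_pos : 0 < rr.leadingCoeff
  rr_eq : ∀ x ∈ Ample, (Module.finrank ℂ (Sec x) : ℚ) = rr.eval (q x x : ℚ)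
  /-- dimension of irreducible closed subsets. -/
  dim : Set P → ℕ
  dim_mono : ∀ Z W : Set P, IsClosed Z → IsIrreducible Z → IsClosed W → IsIrreducible W → Z ⊆ W →
    Z ≠ W → dim Z < dim W
  dim_univ : dim Set.univ = 2 * n
  /-- automorphisms: action on points and (by pull back) on classes. -/
  Aut : Type
  [grp : Group Aut]
  [mul : MulAction Aut P]
  aut_cont : ∀ g : Aut, Continuous fun y : P => g • y
  pull : Aut → Lam →+ Lam
  pull_one : pull 1 = AddMonoidHom.id Lam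
  pull_mul : ∀ g h, pull (g * h) = (pull h).comp (pull g)
  pull_q : ∀ g x y, q (pull g x) (pull g y) = q x y
  pull_NS : ∀ g, ∀ x ∈ NS, pull g x ∈ NS
  pull_ample : ∀ g, ∀ x ∈ Ample, pull g x ∈ Ample
  pull_nef : ∀ g, ∀ x ∈ Nef, pull g x ∈ Nef
  pull_sec : ∀ g x, ∃ u : P → ℂ, (∀ y, u y ≠ 0) ∧
    ∀ s, s ∈ Sec (pull g x) ↔ ∃ t ∈ Sec x, ∀ y, s y = u y * t (g • y)
  /-- only finitely many automorphisms act trivially on `H^2` (Huybrechts). -/
  ker_fin : {g : Aut | pull g = AddMonoidHom.id Lam}.Finite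
  /-- very ample, projectively normal classes; KODAIRA and MUMFORD (Castelnuovo-Mumford
  regularity): if `G - (2n+1)F` is nef, `F` very ample, then `G` is 0-regular for `F`. -/
  VeryAmple : Set Lam
  va_ample : VeryAmple ⊆ Ample
  va_pull : ∀ g, ∀ x ∈ VeryAmple, pull g x ∈ VeryAmple
  exists_va : ∀ x ∈ Ample, ∃ m : ℕ, 0 < m ∧ m • x ∈ VeryAmple
  regular : ∀ F ∈ VeryAmple, ∀ G, G - (2 * n + 1) • F ∈ Nef →
    Sec (G + F) = Submodule.span ℂ {u | ∃ s ∈ Sec G, ∃ t ∈ Sec F, u = s * t}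
  generated : ∀ F ∈ VeryAmple, ∀ G, G - (2 * n + 1) • F ∈ Nef → ∀ y, ∃ s ∈ Sec G, s y ≠ 0
  normal : ∀ F ∈ VeryAmple, ∀ m : ℕ, Sec (m • F) = Submodule.span ℂ
    {u | ∃ t : Fin m → P → ℂ, (∀ i, t i ∈ Sec F) ∧ u = ∏ i, t i}
  /-- classes of prime divisors. -/
  Prime : Set Lam
  prime_NS : Prime ⊆ NS
  prime_nef : ∀ D ∈ Prime, ∀ x ∈ Nef, 0 ≤ q D x
  prime_ample : ∀ D ∈ Prime, ∀ x ∈ Ample, 0 < q D x
  effective : ∀ x ∈ NS, Sec x ≠ ⊥ → x ∈ AddSubmonoid.closure Prime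
  /-- the divisor of poles `D'` of a rational function `s/t` which is invariant under `g`: `t'` its
  section, `s' = (s/t) t'`. -/
  inv_poles : ∀ g : Aut, ∀ D ∈ NS, ∀ s ∈ Sec D, ∀ t ∈ Sec D, t ≠ 0 →
    (∀ y, s (g • y) * t y = t (g • y) * s y) →
    ∃ D' ∈ NS, pull g D' = D' ∧ ∃ s' ∈ Sec D', ∃ t' ∈ Sec D', t' ≠ 0 ∧
      ∀ y, s y * t' y = s' y * t y
  /-- `C` is uncountable. -/
  baire : ∀ bad : ℕ → Set P, (∀ i, IsClosed (bad i) ∧ bad i ≠ Set.univ) → ∃ x, ∀ i, x ∉ bad i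

attribute [instance] Manifold.top Manifold.irr Manifold.t1 Manifold.grp Manifold.mul

variable {n : ℕ} {Lam : Type} [AddCommGroup Lam] {q : Lam → Lam → ℤ}

/-- AN IRREDUCIBLE COMPONENT `F` OF THE FIXED POINT SET of an automorphism `g`; `sigma` is the
symplectic form, `a = dim F`. All integrals are taken on a resolution of `F`. -/
structure FixComp (M : Manifold n Lam q) (g : M.Aut) where
  /-- the degrees on the curves contained in `F`. -/
  curves : Set (Lam →+ ℤ)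
  curve_fix : ∀ δ ∈ curves, ∀ x ∈ M.NS, δ (M.pull g x) = δ x
  /-- `S w` is the integral over `F` of `sigma sigma-bar w^(a-2)` (zero if `a <= 1`), `V w` the one
  of `w^a`; they depend only on the numerical class of `w` on `F`. -/
  S : Lam → ℝ
  V : Lam → ℝ
  S_nonneg : ∀ w ∈ M.Ample, 0 ≤ S w
  S_num : ∀ w ∈ M.NS, ∀ w' ∈ M.NS, (∀ δ ∈ curves, δ w = δ w') → S w = S w'
  V_num : ∀ w ∈ M.NS, ∀ w' ∈ M.NS, (∀ δ ∈ curves, δ w = δ w') → V w = V w'
  /-- YAU: an ample class `w` is the class of the Kaehler form `w_I` of a hyperkaehler metric;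
  `lam sigma = w_J + i w_K` for a constant `lam > 0`, and the three forms have the same square, so
  `lam^2 q(Re sigma) = q(w)`; `c = q(Re sigma)`. WIRTINGER: pointwise on complex subspaces of
  dimension `a` the form `lam^2 sigma sigma-bar w^(a-2) = (w_J^2 + w_K^2) w_I^(a-2)` is at most a
  constant times `w_I^a`. -/
  c : ℝ
  c_pos : 0 < c
  C : ℝ
  yau : ∀ w ∈ M.Ample, ∃ lam : ℝ, lam ^ 2 * c = q w w ∧ lam ^ 2 * S w ≤ C * V w

end Pool.Agent.H83.HN
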