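import Pool.Agent.H83.HN.Iface

/-!
# Deformation classes of hyperkaehler manifolds of dimension `2n`: moduli, Torelli, walls
-/

namespace Pool.Agent.H83.HN

/-- DEFORMATION CLASS of hyperkaehler manifolds of dimension `2n` with `b_2 >= 5`: a connected
component of the moduli space of marked manifolds; `Mem` are its projective members. -/
structure ModClass (n : ℕ) (Lam : Type) [AddCommGroup Lam] where
  /-- the Beauville-Bogomolov form, of signature `(3, b_2 - 3)`. -/
  q : Lam → Lam → ℤ
  q_symm : ∀ x y, q x y = q y x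
  q_add : ∀ x y z, q (x + y) z = q x z + q y z
  three : ∃ a b c, 0 < q a a ∧ 0 < q b b ∧ 0 < q c c ∧ q a b = 0 ∧ q a c = 0 ∧ q b c = 0
  rest : ∀ a b c, 0 < q a a → 0 < q b b → 0 < q c c → q a b = 0 → q a c = 0 → q b c = 0 →
    ∀ v, q v a = 0 → q v b = 0 → q v c = 0 → v ≠ 0 → q v v < 0
  free : Module.Free ℤ Lam
  finite : Module.Finite ℤ Lam
  rank : 5 ≤ Module.finrank ℤ Lam
  Mem : Type
  M : Mem → Manifold n Lam q
  /-- MBM classes (AMERIK-VERBITSKY): primitive classes of negative, bounded square, with `z` also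
  `-z` is one; every prime divisor of negative square is proportional to one. -/
  MBM : Set Lam
  mbm_neg : ∀ z ∈ MBM, q z z < 0
  mbm_bdd : ∃ C : ℤ, ∀ z ∈ MBM, - C ≤ q z z
  prime_mbm : ∀ Y, ∀ D ∈ (M Y).Prime, q D D < 0 → ∃ z ∈ MBM, ∃ a b : ℕ, 0 < a ∧ 0 < b ∧
    a • D = b • z
  /-- SURJECTIVITY OF THE PERIOD MAP (HUYBRECHTS) and MARKMAN's description of its fibres: for a
  rational positive plane `<p1, p2>` and a class `kappa` orthogonal to it, of positive square and on
  no wall, there is a member with this period (the plane oriented so that `kappa` lies in the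
  positive cone of the component) for which `kappa` is ample. -/
  period : ∀ p1 p2 kappa, 0 < q p1 p1 → 0 < q p2 p2 → q p1 p2 = 0 → q kappa p1 = 0 →
    q kappa p2 = 0 → 0 < q kappa kappa →
    (∀ z ∈ MBM, q z p1 = 0 → q z p2 = 0 → q kappa z ≠ 0) →
    ∃ Y, (∀ x, x ∈ (M Y).NS ↔ q x p1 = 0 ∧ q x p2 = 0) ∧ kappa ∈ (M Y).Ample
  /-- the ample cone is a chamber of the walls orthogonal to the MBM classes. -/
  chamber : ∀ Y, ∀ kappa ∈ (M Y).Ample, ∀ y ∈ (M Y).NS, 0 < q y y → 0 < q y kappa →
    (∀ z ∈ MBM, z ∈ (M Y).NS → 0 < q kappa z → 0 < q y z) → y ∈ (M Y).Ample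
  /-- GLOBAL TORELLI (VERBITSKY, MARKMAN): the monodromy group has finite index in the orthogonal
  group, so contains the `m`-th powers; a monodromy operator which is the identity on the
  transcendental lattice and maps an ample class to an ample class comes from an automorphism. -/
  torelli : ∃ m : ℕ, 0 < m ∧ ∀ Y, ∀ phi : Lam ≃+ Lam, (∀ x y, q (phi x) (phi y) = q x y) →
    (∀ v, (∀ x ∈ (M Y).NS, q v x = 0) → phi v = v) →
    (∃ kappa ∈ (M Y).Ample, (phi^[m]) kappa ∈ (M Y).Ample) →
    ∃ g : (M Y).Aut, ∀ x, (M Y).pull g x = (phi^[m]) x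
  /-- LAGRANGIAN FIBRATIONS DEFORM (MATSUSHITA). Let `x` be an isotropic class, nef on `X` and on `Y`;
  the periods orthogonal to `x`, with `x` in the closure of the positive cone, form a connected
  domain, and the very general one has a single member. If `x` is semiample on `Y`, it defines a
  Lagrangian fibration on `Y` and on all small deformations of `Y` on which it is of type `(1,1)`, so
  `h^0(m x)` grows like `m^n` on the very general member, hence on `X` (semicontinuity), and `x` is
  semiample on `X` by KAWAMATA's theorem (numerical dimension and Iitaka dimension are `n`). -/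
  matsushita : ∀ X Y x, x ≠ 0 → q x x = 0 → x ∈ (M X).Nef → x ∈ (M Y).Nef →
    x ∈ (M Y).Semiample → x ∈ (M X).Semiample

end Pool.Agent.H83.HN
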