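import Pool.Agent.H83.HN.Para
import Pool.Agent.H83.HN.Moduli

/-!
# The special member of the deformation class: horoball, chamber
-/

namespace Pool.Agent.H83.HN

/-- Symmetric bilinear integral form. -/
structure IsForm {Lam : Type} [AddCommGroup Lam] (q : Lam → Lam → ℤ) : Prop where
  symm : ∀ x y, q x y = q y x
  add : ∀ x y z, q (x + y) z = q x z + q y z

namespace IsForm

variable {d : ℕ} {Lam : Type} [AddCommGroup Lam] {q : Lam → Lam → ℤ}

/-- left additive map. -/
def hom (hq : IsForm q) (z : Lam) : Lam →+ ℤ where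
  toFun x := q x z
  map_zero' := by
    have := hq.add 0 0 z
    simp only [add_zero] at this
    omega
  map_add' x y := hq.add x y z

theorem hom_apply (hq : IsForm q) (z x : Lam) : hq.hom z x = q x z := rfl

theorem zero_left (hq : IsForm q) (z : Lam) : q 0 z = 0 := (hq.hom z).map_zero

theorem neg_left (hq : IsForm q) (x z : Lam) : q (-x) z = - q x z := (hq.hom z).map_neg x

theorem sub_left (hq : IsForm q) (x y z : Lam) : q (x - y) z = q x z - q y z :=
  (hq.hom z).map_sub x y

theorem zsmul_left (hq : IsForm q) (n : ℤ) (x z : Lam) : q (n • x) z = n * q x z := by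
  have := map_zsmul (hq.hom z) n x
  simpa [hom_apply, smul_eq_mul] using this

theorem nsmul_left (hq : IsForm q) (n : ℕ) (x z : Lam) : q (n • x) z = n * q x z := by
  have := map_nsmul (hq.hom z) n x
  simpa [hom_apply, smul_eq_mul] using this

theorem add_right (hq : IsForm q) (x y z : Lam) : q z (x + y) = q z x + q z y := by
  rw [hq.symm, hq.add, hq.symm x, hq.symm y]

theorem zero_right (hq : IsForm q) (z : Lam) : q z 0 = 0 := by rw [hq.symm, hq.zero_left]

theorem neg_right (hq : IsForm q) (x z : Lam) : q z (-x) = - q z x := by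
  rw [hq.symm, hq.neg_left, hq.symm]

theorem sub_right (hq : IsForm q) (x y z : Lam) : q z (x - y) = q z x - q z y := by
  rw [hq.symm, hq.sub_left, hq.symm x, hq.symm y]

theorem zsmul_right (hq : IsForm q) (n : ℤ) (x z : Lam) : q z (n • x) = n * q z x := by
  rw [hq.symm, hq.zsmul_left, hq.symm]

theorem nsmul_right (hq : IsForm q) (n : ℕ) (x z : Lam) : q z (n • x) = n * q z x := by
  rw [hq.symm, hq.nsmul_left, hq.symm]

theorem sum_left (hq : IsForm q) {ι : Type*} (s : Finset ι) (f : ι → Lam) (z : Lam) :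
    q (∑ i ∈ s, f i) z = ∑ i ∈ s, q (f i) z := by
  classical
  induction s using Finset.induction_on with
  | empty => simp [hq.zero_left]
  | insert a s ha ih => rw [Finset.sum_insert ha, Finset.sum_insert ha, hq.add, ih]

end IsForm

/-- Signature `(3, *)`. -/
def Sig {Lam : Type} [AddCommGroup Lam] (q : Lam → Lam → ℤ) : Prop :=
  ∀ a b c, 0 < q a a → 0 < q b b → 0 < q c c → q a b = 0 → q a c = 0 → q b c = 0 →
    ∀ v, q v a = 0 → q v b = 0 → q v c = 0 → v ≠ 0 → q v v < 0

section lattice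

variable {d : ℕ} {Lam : Type} [AddCommGroup Lam] {q : Lam → Lam → ℤ}

theorem Sig.le (hs : Sig q) (hq : IsForm q) {a b c : Lam} (ha : 0 < q a a) (hb : 0 < q b b)
    (hc : 0 < q c c) (hab : q a b = 0) (hac : q a c = 0) (hbc : q b c = 0) {v : Lam}
    (h1 : q v a = 0) (h2 : q v b = 0) (h3 : q v c = 0) : q v v ≤ 0 := by
  by_cases hv : v = 0
  · rw [hv, hq.zero_left]
  · exact (hs a b c ha hb hc hab hac hbc v h1 h2 h3 hv).le

/-- HOROBALL: a wall through a positive class `y` orthogonal to the plane. -/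
theorem horo (hs : Sig q) (hq : IsForm q) {p1 p2 L y z : Lam} (h1 : 0 < q p1 p1)
    (h2 : 0 < q p2 p2) (h12 : q p1 p2 = 0) (hL1 : q L p1 = 0) (hL2 : q L p2 = 0)
    (hLL : q L L = 0) (hy1 : q y p1 = 0) (hy2 : q y p2 = 0) (hy : 0 < q y y)
    (hz1 : q z p1 = 0) (hz2 : q z p2 = 0) (hz : q z z < 0) (hyz : q y z = 0) :
    (q L z) ^ 2 * q y y ≤ (- q z z) * (q L y) ^ 2 := by
  set w : Lam := (q y y * q z z) • L - (q L y * q z z) • y - (q L z * q y y) • z with hw
  have hzy : q z y = 0 := by rw [hq.symm, hyz]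
  have hyL : q y L = q L y := hq.symm _ _
  have hzL : q z L = q L z := hq.symm _ _
  have hwy : q w y = 0 := by
    rw [hw, hq.sub_left, hq.sub_left, hq.zsmul_left, hq.zsmul_left, hq.zsmul_left, hzy]
    ring
  have hwz : q w z = 0 := by
    rw [hw, hq.sub_left, hq.sub_left, hq.zsmul_left, hq.zsmul_left, hq.zsmul_left, hyz]
    ring
  have hwL : q w L = - (q L y) ^ 2 * q z z - (q L z) ^ 2 * q y y := by
    rw [hw, hq.sub_left, hq.sub_left, hq.zsmul_left, hq.zsmul_left, hq.zsmul_left, hLL, hyL, hzL]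
    ring
  have hw1 : q w p1 = 0 := by
    rw [hw, hq.sub_left, hq.sub_left, hq.zsmul_left, hq.zsmul_left, hq.zsmul_left, hL1, hy1, hz1]
    ring
  have hw2 : q w p2 = 0 := by
    rw [hw, hq.sub_left, hq.sub_left, hq.zsmul_left, hq.zsmul_left, hq.zsmul_left, hL2, hy2, hz2]
    ring
  have hww : q w w = (q y y * q z z) * q w L := by
    conv_lhs => rw [hq.symm w w]
    conv_lhs => rw [hw]
    rw [← hw, hq.sub_left, hq.sub_left, hq.zsmul_left, hq.zsmul_left, hq.zsmul_left,
      hq.symm L w, hq.symm y w, hq.symm z w, hwy, hwz]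
    ring
  have hle : q w w ≤ 0 := hs.le hq h1 h2 hy h12 (by rw [hq.symm, hy1]) (by rw [hq.symm, hy2])
    hw1 hw2 hwy
  have hneg : q y y * q z z < 0 := mul_neg_of_pos_of_neg hy hz
  have hwL' : 0 ≤ q w L := by
    by_contra h
    push Not at h
    have := mul_pos_of_neg_of_neg hneg h
    rw [← hww] at this
    omega
  rw [hwL] at hwL'
  linarith

/-- Two positive classes on the same side of the isotropic class. -/
theorem pos_pair (hs : Sig q) (hq : IsForm q) {p1 p2 L x y : Lam} (h1 : 0 < q p1 p1)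
    (h2 : 0 < q p2 p2) (h12 : q p1 p2 = 0) (hL1 : q L p1 = 0) (hL2 : q L p2 = 0)
    (hLL : q L L = 0) (hL0 : L ≠ 0) (hx1 : q x p1 = 0) (hx2 : q x p2 = 0) (hx : 0 < q x x)
    (hy1 : q y p1 = 0) (hy2 : q y p2 = 0) (hy : 0 < q y y)
    (hxL : 0 < q x L) (hyL : 0 < q y L) : 0 < q x y := by
  by_contra h
  push Not at h
  set v : Lam := (q y L) • x - (q x L) • y with hv
  have hvL : q v L = 0 := by
    rw [hv, hq.sub_left, hq.zsmul_left, hq.zsmul_left]
    ring
  have hv1 : q v p1 = 0 := by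
    rw [hv, hq.sub_left, hq.zsmul_left, hq.zsmul_left, hx1, hy1]
    ring
  have hv2 : q v p2 = 0 := by
    rw [hv, hq.sub_left, hq.zsmul_left, hq.zsmul_left, hx2, hy2]
    ring
  have hvv : 0 < q v v := by
    have e : q v v = (q y L) ^ 2 * q x x + (q x L) ^ 2 * q y y - 2 * (q y L * q x L) * q x y := by
      rw [hv, hq.sub_left, hq.zsmul_left, hq.zsmul_left, hq.sub_right, hq.sub_right,
        hq.zsmul_right, hq.zsmul_right, hq.zsmul_right, hq.zsmul_right, hq.symm y x]
      ring
    rw [e]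
    have a1 : 0 < (q y L) ^ 2 * q x x := by positivity
    have a2 : 0 < (q x L) ^ 2 * q y y := by positivity
    have a3 : 0 ≤ -(q y L * q x L * q x y) := by
      have : 0 ≤ (q y L * q x L) * (- q x y) := mul_nonneg (by positivity) (by omega)
      linarith
    linarith
  have := hs p1 p2 v h1 h2 hvv h12 (by rw [hq.symm, hv1]) (by rw [hq.symm, hv2]) L hL1 hL2
    (by rw [hq.symm, hvL]) hL0
  omega

/-- Light cone lemma. -/
theorem light (hs : Sig q) (hq : IsForm q) {p1 p2 L A x : Lam} (h1 : 0 < q p1 p1)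
    (h2 : 0 < q p2 p2) (h12 : q p1 p2 = 0) (hL1 : q L p1 = 0) (hL2 : q L p2 = 0)
    (hLL : q L L = 0) (hx1 : q x p1 = 0) (hx2 : q x p2 = 0) (hx : 0 ≤ q x x)
    (hA1 : q A p1 = 0) (hA2 : q A p2 = 0) (hA : 0 < q A A) (hxL : q x L = 0) :
    (q A L) • x = (q A x) • L := by
  by_contra h
  set v : Lam := (q A L) • x - (q A x) • L with hv
  have hv0 : v ≠ 0 := by
    rw [hv]
    exact sub_ne_zero.2 h
  have hvA : q v A = 0 := by
    rw [hv, hq.sub_left, hq.zsmul_left, hq.zsmul_left, hq.symm x A, hq.symm L A]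
    ring
  have hv1 : q v p1 = 0 := by
    rw [hv, hq.sub_left, hq.zsmul_left, hq.zsmul_left, hx1, hL1]
    ring
  have hv2 : q v p2 = 0 := by
    rw [hv, hq.sub_left, hq.zsmul_left, hq.zsmul_left, hx2, hL2]
    ring
  have hvv : 0 ≤ q v v := by
    have e : q v v = (q A L) ^ 2 * q x x := by
      rw [hv, hq.sub_left, hq.zsmul_left, hq.zsmul_left, hq.sub_right, hq.sub_right,
        hq.zsmul_right, hq.zsmul_right, hq.zsmul_right, hq.zsmul_right, hq.symm L x, hxL, hLL]
      ring
    rw [e]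
    positivity
  have := hs p1 p2 A h1 h2 hA h12 (by rw [hq.symm, hA1]) (by rw [hq.symm, hA2]) v hv1 hv2 hvA hv0
  omega

end lattice

/-- A good rational positive plane: orthogonal to `A`, `L`, and no vector of small negative square
is orthogonal to the plane and to `L`. -/
def Good {Lam : Type} (q : Lam → Lam → ℤ) (A L p1 p2 : Lam) (B : ℤ) : Prop :=
  0 < q p1 p1 ∧ 0 < q p2 p2 ∧ q p1 p2 = 0 ∧ q A p1 = 0 ∧ q A p2 = 0 ∧ q L p1 = 0 ∧ q L p2 = 0 ∧
    ∀ z, q z p1 = 0 → q z p2 = 0 → q z L = 0 → - B ≤ q z z → q z z < 0 → False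

section member

variable {d : ℕ} {Lam : Type} [AddCommGroup Lam]

theorem ModClass.form (C : ModClass d Lam) : IsForm C.q := ⟨C.q_symm, C.q_add⟩

theorem ModClass.sig (C : ModClass d Lam) : Sig C.q := C.rest

/-- The special member: rational period, `L` nef, the horoball is contained in the ample cone, the
prime divisors orthogonal to `L` are multiples of `L`. -/
theorem member (C : ModClass d Lam) {L A0 p1 p2 : Lam} (hL0 : L ≠ 0) (hLL : C.q L L = 0)
    (hA0 : 0 < C.q A0 A0) (hAL : 0 < C.q A0 L) {B : ℤ} (hB0 : 0 ≤ B)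
    (hB : ∀ z ∈ C.MBM, - B ≤ C.q z z) (hg : Good C.q A0 L p1 p2 B) :
    ∃ (Y : C.Mem) (A : Lam) (t : ℕ) (n : ℕ),
      (∀ x, x ∈ (C.M Y).NS ↔ C.q x p1 = 0 ∧ C.q x p2 = 0) ∧
      L ∈ (C.M Y).Nef ∧
      A = n • (A0 + t • L) ∧ A ∈ (C.M Y).VeryAmple ∧ 0 < C.q A L ∧
      B * (C.q L A) ^ 2 < C.q A A ∧
      (∀ y ∈ (C.M Y).NS, 0 < C.q y y → 0 < C.q y L → B * (C.q L y) ^ 2 < C.q y y →
        y ∈ (C.M Y).Ample) ∧
      (∀ D ∈ (C.M Y).Prime, C.q D L = 0 → ∃ a b : ℕ, 0 < a ∧ 0 < b ∧ a • D = b • L) := by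
  obtain ⟨h1, h2, h12, hA1, hA2, hL1, hL2, hgood⟩ := hg
  have hq := C.form
  have hs := C.sig
  set q := C.q with hqdef
  -- the class kappa
  obtain ⟨t, ht⟩ : ∃ t : ℕ, B * (q L A0) ^ 2 < q A0 A0 + 2 * t * q A0 L := by
    refine ⟨(B * (q L A0) ^ 2).toNat, ?_⟩
    have h0 : 0 ≤ B * (q L A0) ^ 2 := by positivity
    have : (((B * (q L A0) ^ 2).toNat : ℕ) : ℤ) = B * (q L A0) ^ 2 := Int.toNat_of_nonneg h0
    rw [this]
    nlinarith
  set kap : Lam := A0 + t • L with hkap
  have hkL : q kap L = q A0 L := by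
    rw [hkap, hq.add, hq.nsmul_left, hLL]
    ring
  have hLk : q L kap = q A0 L := by rw [hq.symm, hkL]
  have hkk : q kap kap = q A0 A0 + 2 * t * q A0 L := by
    rw [hkap, hq.add, hq.add_right, hq.add_right, hq.nsmul_left, hq.nsmul_left, hq.nsmul_right,
      hq.nsmul_right, hLL, hq.symm L A0]
    ring
  have hk1 : q kap p1 = 0 := by
    rw [hkap, hq.add, hq.nsmul_left, hA1, hL1]
    ring
  have hk2 : q kap p2 = 0 := by
    rw [hkap, hq.add, hq.nsmul_left, hA2, hL2]
    ring
  have hkpos : 0 < q kap kap := by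
    rw [hkk]
    have : 0 ≤ 2 * (t : ℤ) * q A0 L := by positivity
    linarith
  have hkhoro : B * (q L kap) ^ 2 < q kap kap := by
    rw [hkk, hLk]
    have h := ht
    rw [hq.symm L A0] at h
    exact h
  -- no wall meets the horoball
  have hwall : ∀ z ∈ C.MBM, q z p1 = 0 → q z p2 = 0 → ∀ y, q y p1 = 0 → q y p2 = 0 → 0 < q y y →
      B * (q L y) ^ 2 < q y y → q y z ≠ 0 := by
    intro z hz hz1 hz2 y hy1 hy2 hy hyB hyz
    have hzz := C.mbm_neg z hz
    have := horo hs hq h1 h2 h12 hL1 hL2 hLL hy1 hy2 hy hz1 hz2 hzz hyz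
    have hzL : q L z ≠ 0 := by
      intro h
      exact hgood z hz1 hz2 (by rw [hq.symm, h]) (hB z hz) hzz
    have h3 : 1 ≤ (q L z) ^ 2 := by
      have : 0 < (q L z) ^ 2 := by positivity
      omega
    have h4 : (- q z z) * (q L y) ^ 2 ≤ B * (q L y) ^ 2 := by
      have := hB z hz
      have h5 : - q z z ≤ B := by linarith
      exact mul_le_mul_of_nonneg_right h5 (by positivity)
    nlinarith
  obtain ⟨Y, hNS, hkA⟩ := C.period p1 p2 kap h1 h2 h12 hk1 hk2 hkpos
    (fun z hz hz1 hz2 => hwall z hz hz1 hz2 kap hk1 hk2 hkpos hkhoro)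
  -- signs on the horoball
  have hsign : ∀ z ∈ C.MBM, q z p1 = 0 → q z p2 = 0 → ∀ y, q y p1 = 0 → q y p2 = 0 → 0 < q y y →
      0 < q y L → B * (q L y) ^ 2 < q y y → 0 < q L z → 0 < q y z := by
    intro z hz hz1 hz2 y hy1 hy2 hy hyL hyB hLz
    by_contra h
    push Not at h
    set y' : Lam := (q L z) • y - (q y z) • L with hy'
    have e1 : q y' z = 0 := by
      rw [hy', hq.sub_left, hq.zsmul_left, hq.zsmul_left]
      ring
    have e2 : q y' p1 = 0 := by
      rw [hy', hq.sub_left, hq.zsmul_left, hq.zsmul_left, hy1, hL1]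
      ring
    have e3 : q y' p2 = 0 := by
      rw [hy', hq.sub_left, hq.zsmul_left, hq.zsmul_left, hy2, hL2]
      ring
    have e4 : q y' y' = (q L z) ^ 2 * q y y - 2 * (q L z * q y z) * q y L := by
      rw [hy', hq.sub_left, hq.zsmul_left, hq.zsmul_left, hq.sub_right, hq.sub_right,
        hq.zsmul_right, hq.zsmul_right, hq.zsmul_right, hq.zsmul_right, hLL, hq.symm L y]
      ring
    have e5 : q L y' = q L z * q L y := by
      rw [hy', hq.sub_right, hq.zsmul_right, hq.zsmul_right, hLL]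
      ring
    have e6 : (q L z) ^ 2 * q y y ≤ q y' y' := by
      rw [e4]
      have : 0 ≤ (q L z * (- q y z)) * q y L := by
        apply mul_nonneg (mul_nonneg hLz.le (by omega)) hyL.le
      linarith
    have e7 : 0 < (q L z) ^ 2 * q y y := by positivity
    refine hwall z hz hz1 hz2 y' e2 e3 (by linarith) ?_ e1
    rw [e5]
    have : B * (q L z * q L y) ^ 2 = (q L z) ^ 2 * (B * (q L y) ^ 2) := by ring
    rw [this]
    have h8 : (q L z) ^ 2 * (B * (q L y) ^ 2) < (q L z) ^ 2 * q y y :=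
      mul_lt_mul_of_pos_left hyB (by positivity)
    linarith
  have hhoro : ∀ y ∈ (C.M Y).NS, 0 < q y y → 0 < q y L → B * (q L y) ^ 2 < q y y →
      y ∈ (C.M Y).Ample := by
    intro y hy hyy hyL hyB
    obtain ⟨hy1, hy2⟩ := (hNS y).1 hy
    refine C.chamber Y kap hkA y hy hyy ?_ ?_
    · exact pos_pair hs hq h1 h2 h12 hL1 hL2 hLL hL0 hy1 hy2 hyy hk1 hk2 hkpos hyL
        (by rw [hkL]; exact hAL)
    · intro z hz hzNS hkz
      obtain ⟨hz1, hz2⟩ := (hNS z).1 hzNS
      have hLz0 : q L z ≠ 0 := by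
        intro h
        exact hgood z hz1 hz2 (by rw [hq.symm, h]) (hB z hz) (C.mbm_neg z hz)
      have hLz : 0 < q L z := by
        rcases lt_or_gt_of_ne hLz0 with h | h
        · exfalso
          -- use the class -q(L,z) kap + q(kap,z) L
          set y' : Lam := (- q L z) • kap + (q kap z) • L with hy'
          have e1 : q y' z = 0 := by
            rw [hy', hq.add, hq.zsmul_left, hq.zsmul_left]
            ring
          have e2 : q y' p1 = 0 := by
            rw [hy', hq.add, hq.zsmul_left, hq.zsmul_left, hk1, hL1]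
            ring
          have e3 : q y' p2 = 0 := by
            rw [hy', hq.add, hq.zsmul_left, hq.zsmul_left, hk2, hL2]
            ring
          have e4 : q y' y' = (q L z) ^ 2 * q kap kap + 2 * ((- q L z) * q kap z) * q kap L := by
            rw [hy', hq.add, hq.zsmul_left, hq.zsmul_left, hq.add_right, hq.add_right,
              hq.zsmul_right, hq.zsmul_right, hq.zsmul_right, hq.zsmul_right, hLL, hq.symm L kap]
            ring
          have e5 : q L y' = (- q L z) * q L kap := by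
            rw [hy', hq.add_right, hq.zsmul_right, hq.zsmul_right, hLL]
            ring
          have e6 : (q L z) ^ 2 * q kap kap ≤ q y' y' := by
            rw [e4]
            have : 0 ≤ ((- q L z) * q kap z) * q kap L := by
              apply mul_nonneg (mul_nonneg (by omega) hkz.le)
              rw [hkL]
              exact hAL.le
            linarith
          have e7 : 0 < (q L z) ^ 2 * q kap kap := by positivity
          refine hwall z hz hz1 hz2 y' e2 e3 (by linarith) ?_ e1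
          rw [e5]
          have : B * (- q L z * q L kap) ^ 2 = (q L z) ^ 2 * (B * (q L kap) ^ 2) := by ring
          rw [this]
          have h8 : (q L z) ^ 2 * (B * (q L kap) ^ 2) < (q L z) ^ 2 * q kap kap :=
            mul_lt_mul_of_pos_left hkhoro (by positivity)
          linarith
        · exact h
      exact hsign z hz hz1 hz2 y hy1 hy2 hyy hyL hyB hLz
  have hLNS : L ∈ (C.M Y).NS := (hNS L).2 ⟨hL1, hL2⟩
  have hkNS : kap ∈ (C.M Y).NS := (hNS kap).2 ⟨hk1, hk2⟩
  have hLnef : L ∈ (C.M Y).Nef := by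
    refine (C.M Y).nef_limit kap hkA L hLNS fun n => ?_
    have e1 : q (kap + n • L) (kap + n • L) = q kap kap + 2 * n * q kap L := by
      rw [hq.add kap (n • L), hq.add_right kap (n • L) kap, hq.add_right kap (n • L) (n • L),
        hq.nsmul_left, hq.nsmul_left, hq.nsmul_right, hq.nsmul_right, hLL, hq.symm L kap]
      ring
    have e2 : q (kap + n • L) L = q kap L := by
      rw [hq.add, hq.nsmul_left, hLL]
      ring
    have e3 : q L (kap + n • L) = q L kap := by
      rw [hq.add_right, hq.nsmul_right, hLL]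
      ring
    have hpos : 0 ≤ 2 * (n : ℤ) * q kap L := by
      rw [hkL]
      positivity
    refine hhoro _ (add_mem hkNS (nsmul_mem hLNS n)) ?_ ?_ ?_
    · rw [e1]
      linarith
    · rw [e2, hkL]
      exact hAL
    · rw [e3, e1]
      linarith
  obtain ⟨n, hn, hva⟩ := (C.M Y).exists_va kap hkA
  have hn' : (0 : ℤ) < n := by exact_mod_cast hn
  refine ⟨Y, n • kap, t, n, hNS, hLnef, rfl, hva, ?_, ?_, hhoro, ?_⟩
  · change 0 < q (n • kap) L
    rw [hq.nsmul_left, hkL]
    positivity
  · change B * (q L (n • kap)) ^ 2 < q (n • kap) (n • kap)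
    rw [hq.nsmul_left, hq.nsmul_right, hq.nsmul_right]
    have : B * (n * q L kap) ^ 2 = n ^ 2 * (B * (q L kap) ^ 2) := by ring
    rw [this]
    have h8 : (n : ℤ) ^ 2 * (B * (q L kap) ^ 2) < n ^ 2 * q kap kap :=
      mul_lt_mul_of_pos_left hkhoro (by positivity)
    linarith
  · intro D hD hDL
    obtain ⟨hD1, hD2⟩ := (hNS D).1 ((C.M Y).prime_NS hD)
    by_cases hDD : q D D < 0
    · exfalso
      obtain ⟨z, hz, a, b, ha, hb, hab⟩ := C.prime_mbm Y D hD hDD
      have hb' : (b : ℤ) ≠ 0 := by exact_mod_cast hb.ne'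
      have key : ∀ v, q D v = 0 → q z v = 0 := by
        intro v hv
        have e : q (a • D) v = q (b • z) v := by rw [hab]
        rw [hq.nsmul_left, hq.nsmul_left, hv, mul_zero] at e
        exact (mul_eq_zero.1 e.symm).resolve_left hb'
      exact hgood z (key p1 hD1) (key p2 hD2) (key L hDL) (hB z hz) (C.mbm_neg z hz)
    · push Not at hDD
      have h3 := light hs hq h1 h2 h12 hL1 hL2 hLL hD1 hD2 hDD hk1 hk2 hkpos hDL
      have hkL' : 0 < q kap L := by rw [hkL]; exact hAL
      have hkD : 0 < q kap D := by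
        rw [hq.symm]
        exact (C.M Y).prime_ample D hD kap hkA
      refine ⟨(q kap L).toNat, (q kap D).toNat, by omega, by omega, ?_⟩
      have c1 : ((q kap L).toNat : ℤ) • D = (q kap L).toNat • D := natCast_zsmul _ _
      have c2 : ((q kap D).toNat : ℤ) • L = (q kap D).toNat • L := natCast_zsmul _ _
      rw [← c1, ← c2, Int.toNat_of_nonneg hkL'.le, Int.toNat_of_nonneg hkD.le]
      exact h3

end member

end Pool.Agent.H83.HN
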