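import Pool.Agent.H83.HN.Para

/-!
# Isotropy of the components of the fixed point set

An element `g = rho g0`, `g0 ≠ 0`, of the parabolic group is the identity on a component `F` of its
fixed point set, so `L` is numerically trivial on `F` (the degree of `(g^k)^*A` on a curve of `F` does
not depend on `k`, but its coefficient at `k^2` is a non zero multiple of the degree of `L`). The
classes `A + t L` have the same restriction to `F` and squares growing with `t`: the hyperkaehler
metrics with these Kaehler classes show that the symplectic form vanishes on `F`.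
-/

namespace Pool.Agent.H83.HN

variable {n : ℕ} {Lam : Type} [AddCommGroup Lam] {q : Lam → Lam → ℤ} {M : Manifold n Lam q}
  {L A : Lam} {r : ℕ}

/-- The powers of `rho g0` are the identity on `F`. -/
theorem FixComp.pow_fix (π : Para M L A r) (g0 : Fin r → ℤ) (F : FixComp M (π.rho g0))
    (δ : Lam →+ ℤ) (hδ : δ ∈ F.curves) (k : ℕ) (x : Lam) (hx : x ∈ M.NS) :
    δ (M.pull (π.rho (k • g0)) x) = δ x := by
  induction k generalizing x with
  | zero =>
    rw [zero_smul, π.rho_zero, M.pull_one]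
    rfl
  | succ k ih =>
    rw [succ_nsmul', π.rho_add, M.pull_mul, AddMonoidHom.comp_apply, ih _ (M.pull_NS _ _ hx),
      F.curve_fix δ hδ x hx]

/-- `L` is numerically trivial on `F`. -/
theorem FixComp.curve_L (q_symm : ∀ x y, q x y = q y x)
    (q_add : ∀ x y z, q (x + y) z = q x z + q y z) (π : Para M L A r) (g0 : Fin r → ℤ)
    (hg0 : g0 ≠ 0) (hA : A ∈ M.NS) (hLA : 0 < q L A) (F : FixComp M (π.rho g0)) (δ : Lam →+ ℤ)
    (hδ : δ ∈ F.curves) : δ L = 0 := by
  have hb := π.b_neg g0 hg0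
  have key : ∀ k : ℕ, (2 * q L A) * (k * δ (π.b g0)) -
      2 * q (π.b (k • g0)) (π.b (k • g0)) * q L A * δ L = 0 := by
    intro k
    have h1 := FixComp.pow_fix π g0 F δ hδ k A hA
    rw [π.pull_eq, π.b_A, map_sub, map_add, map_zsmul, map_zsmul] at h1
    have h2 : δ (π.b (k • g0)) = k * δ (π.b g0) := by
      rw [map_nsmul, map_nsmul, nsmul_eq_mul]
    rw [h2] at h1
    simp only [smul_eq_mul, mul_zero, zero_add] at h1
    linarith
  have h1 := key 1
  have h2 := key 2
  have h3 : q (π.b (2 • g0)) (π.b (2 • g0)) = 4 * q (π.b g0) (π.b g0) := by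
    have hr : ∀ x y z, q x (y + z) = q x y + q x z := fun x y z => by
      rw [q_symm, q_add, q_symm y, q_symm z]
    rw [map_nsmul, two_nsmul, q_add, hr]
    ring
  rw [h3] at h2
  rw [one_smul] at h1
  push_cast at h1 h2
  have h4 : (q (π.b g0) (π.b g0) * q L A) * δ L = 0 := by linarith
  rcases mul_eq_zero.1 h4 with h5 | h5
  · rcases mul_eq_zero.1 h5 with h6 | h6
    · omega
    · omega
  · exact h5

/-- ISOTROPY: the integral over `F` of `sigma sigma-bar A^(a-2)` is zero, so `sigma` vanishes on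
`F`. -/
theorem FixComp.iso (q_symm : ∀ x y, q x y = q y x)
    (q_add : ∀ x y z, q (x + y) z = q x z + q y z) (π : Para M L A r) (g0 : Fin r → ℤ)
    (hg0 : g0 ≠ 0) (hA : A ∈ M.Ample) (hL : L ∈ M.Nef) (hLL : q L L = 0) (hLA : 0 < q L A)
    (F : FixComp M (π.rho g0)) : F.S A = 0 := by
  have hAN : A ∈ M.NS := M.nef_NS (M.ample_nef hA)
  have hLN : L ∈ M.NS := M.nef_NS hL
  have hr : ∀ x y z, q x (y + z) = q x y + q x z := fun x y z => by
    rw [q_symm, q_add, q_symm y, q_symm z]
  have hnef : ∀ t : ℕ, t • L ∈ M.Nef := by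
    intro t
    induction t with
    | zero => rw [zero_smul]; exact M.nef_zero
    | succ t ih => rw [succ_nsmul]; exact M.nef_add _ ih _ hL
  -- the classes `A + t L`
  have hq : ∀ t : ℕ, q (A + t • L) (A + t • L) = q A A + 2 * t * q L A := by
    intro t
    have h0 : ∀ x, q 0 x = 0 := by
      intro x
      have := q_add 0 0 x
      rw [add_zero] at this
      linarith
    have h1 : ∀ x : Lam, q (t • L) x = t * q L x := by
      intro x
      induction t with
      | zero => rw [zero_smul, h0]; simp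
      | succ t ih => rw [succ_nsmul, q_add, ih]; push_cast; ring
    rw [q_add, hr, hr, h1, h1, q_symm A (t • L), h1, q_symm L (t • L), h1, hLL]
    ring
  have hδ : ∀ t : ℕ, ∀ δ ∈ F.curves, δ A = δ (A + t • L) := by
    intro t δ hδ
    rw [map_add, map_nsmul, FixComp.curve_L q_symm q_add π g0 hg0 hAN hLA F δ hδ, smul_zero,
      add_zero]
  by_contra hne
  have hpos : 0 < F.S A := lt_of_le_of_ne (F.S_nonneg A hA) (Ne.symm hne)
  obtain ⟨t, ht⟩ := exists_nat_gt (F.C * F.V A * F.c / F.S A)
  obtain ⟨lam, h1, h2⟩ := F.yau _ (M.ample_add A hA _ (hnef t))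
  have hS : F.S (A + t • L) = F.S A :=
    (F.S_num A hAN _ (M.NS.add_mem hAN (M.NS.nsmul_mem hLN t)) (hδ t)).symm
  have hV : F.V (A + t • L) = F.V A :=
    (F.V_num A hAN _ (M.NS.add_mem hAN (M.NS.nsmul_mem hLN t)) (hδ t)).symm
  rw [hq] at h1
  rw [hS, hV] at h2
  push_cast at h1
  have hqA : (0 : ℝ) < q A A := by exact_mod_cast M.ample_q A hA
  have hqL : (1 : ℝ) ≤ q L A := by exact_mod_cast hLA
  have h3 : lam ^ 2 * F.S A * F.c ≤ F.C * F.V A * F.c :=
    mul_le_mul_of_nonneg_right h2 F.c_pos.le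
  rw [div_lt_iff₀ hpos] at ht
  have h4 : (t : ℝ) ≤ lam ^ 2 * F.c := by
    rw [h1]
    have : (t : ℝ) * 1 ≤ t * q L A := mul_le_mul_of_nonneg_left hqL (Nat.cast_nonneg t)
    nlinarith [Nat.cast_nonneg (α := ℝ) t]
  have h5 : (t : ℝ) * F.S A ≤ lam ^ 2 * F.c * F.S A := mul_le_mul_of_nonneg_right h4 hpos.le
  nlinarith

end Pool.Agent.H83.HN
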