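import Pool.Agent.H83.HN.Moduli
import Pool.Agent.H83.HN.Iso
import Pool.Agent.H13.HN.Iitaka
import Pool.Agent.H13.HN.Disc

/-!
# Hyperkaehler manifolds of dimension `2n` with `b_2 >= 4n + 3`: the arithmetic data, the statement

`Manifold` contains the geometry of one projective member, `ModClass` the moduli theory (Torelli,
walls, Lagrangian fibrations), `Iitaka` the Iitaka fibration of an isotropic nef class, `FixComp` a
component of the fixed point set of an automorphism, `Disc` the arithmetic.
-/

namespace Pool.Agent.H83.HN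

open Pool.Agent.H13.HN

variable {n : ℕ} {Lam : Type} [AddCommGroup Lam]

/-- THE PERIOD of `Y` is rational: the transcendental lattice has rank two and is positive definite.
Then `Y` has maximal Picard number, so it is rigid with its line bundles and defined over a number
field with all of them and all its automorphisms. -/
def ModClass.RatPeriod (C : ModClass n Lam) (Y : C.Mem) : Prop :=
  ∃ p1 p2, 0 < C.q p1 p1 ∧ 0 < C.q p2 p2 ∧ C.q p1 p2 = 0 ∧
    ∀ x, x ∈ (C.M Y).NS ↔ C.q x p1 = 0 ∧ C.q x p2 = 0

/-- DEFORMATION CLASS of hyperkaehler manifolds of dimension `2n`, with the Iitaka fibrations, fixed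
points and arithmetic data of its members. -/
structure DefClass (n : ℕ) (Lam : Type) [AddCommGroup Lam] extends ModClass n Lam where
  /-- the Iitaka fibrations of the isotropic nef classes on the members with rational period. -/
  iit : ∀ Y, toModClass.RatPeriod Y → ∀ L, L ∈ (M Y).Nef → q L L = 0 → L ≠ 0 → Iitaka (M Y) L
  /-- HOLOMORPHIC LEFSCHETZ FORMULA: an automorphism which fixes the transcendental lattice fixes
  the class of the symplectic form, so its Lefschetz number on `H^*(Y, O)` is `n + 1` and it has a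
  fixed point; `fix Y g` is a component `F` of the fixed point set. -/
  fix : ∀ Y, ∀ g : (M Y).Aut, (∀ v, (∀ x ∈ (M Y).NS, q v x = 0) → (M Y).pull g v = v) →
    FixComp (M Y) g
  /-- ARITHMETIC DATA. Let `rho` be a commutative group of automorphisms of a member `Y` with rational
  period which act trivially on the base of the Iitaka fibration of `L`, and `F` the component `fix`
  of the fixed point set of `rho g0`; `S A` is the integral over `F` of `sigma sigma-bar A^(a-2)`
  (`a = dim F`), so if it is zero, `sigma` vanishes on `F`. Then the data of `Disc` exist, after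
  replacing the group by a subgroup of finite index: `U` is the residue disc of a smooth point `z` of
  `F`, defined over a number field; the group preserves `F` and `U`, so the vector fields of its
  interpolated action on `U` are tangent to `F` at `z`, and the values of `sigma` on them, which are
  constant on `U`, are zero. The fibres of the Iitaka fibration are assumed to be coisotropic, so the
  Hamiltonian fields commute and are tangent to them. -/
  disc : ∀ Y (hY : toModClass.RatPeriod Y) L (hL : L ∈ (M Y).Nef) (hLL : q L L = 0) (hL0 : L ≠ 0),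
    ∀ {r : ℕ} (rho : (Fin r → ℤ) → (M Y).Aut), rho 0 = 1 →
    (∀ m m', rho (m + m') = rho m * rho m') →
    (∀ m, rho m ∈ (iit Y hY L hL hLL hL0).triv) →
    (iit Y hY L hL hLL hL0).Cois → ∀ A ∈ (M Y).VeryAmple, ∀ g0 h, (fix Y (rho g0) h).S A = 0 →
    ∃ m : ℕ, 0 < m ∧ ∃ (p : ℕ) (_ : Fact p.Prime), Nonempty
      (Disc q ((M Y).NS : Set Lam) (M Y).Ample ((M Y).Sec A) n
        (fun k (y : (M Y).P) => rho (m • k) • y) (fun k x => (M Y).pull (rho (m • k)) x) A
        {y | (iit Y hY L hL hLL hL0).s 0 y ≠ 0}
        (fun y u => (iit Y hY L hL hLL hL0).J y A u) p)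

/-- MAIN STATEMENT: every nef class on a projective hyperkaehler manifold of dimension `2n`, `n >= 2`,
with `b_2 >= 4n + 3`, is semiample. -/
def Statement : Prop :=
  ∀ n : ℕ, 2 ≤ n → ∀ (Lam : Type) [AddCommGroup Lam] (C : DefClass n Lam),
    4 * n + 3 ≤ Module.finrank ℤ Lam → ∀ X : C.Mem, (C.M X).Nef ⊆ (C.M X).Semiample

/-- THE ARITHMETIC DATA OF THE PARABOLIC GROUP exist, `sigma` being zero on the component `F`. -/
theorem DefClass.exists_disc (C : DefClass n Lam) (Y : C.Mem) (hY : C.RatPeriod Y) (L : Lam)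
    (hL : L ∈ (C.M Y).Nef) (hLL : C.q L L = 0) (hL0 : L ≠ 0) {r : ℕ} {A : Lam}
    (hA : A ∈ (C.M Y).VeryAmple) (π : Para (C.M Y) L A r)
    (htriv : ∀ m, π.rho m ∈ (C.iit Y hY L hL hLL hL0).triv)
    (hk : (C.iit Y hY L hL hLL hL0).k ≤ n) (g0 : Fin r → ℤ) (hg0 : g0 ≠ 0) :
    ∃ m : ℕ, ∃ hm : 0 < m, ∃ (p : ℕ) (_ : Fact p.Prime), Nonempty
      (Disc C.q ((C.M Y).NS : Set Lam) (C.M Y).Ample ((C.M Y).Sec A) n
        (fun k (y : (C.M Y).P) => (π.mul m hm).rho k • y)
        (fun k x => (C.M Y).pull ((π.mul m hm).rho k) x) A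
        {y | (C.iit Y hY L hL hLL hL0).s 0 y ≠ 0}
        (fun y u => (C.iit Y hY L hL hLL hL0).J y A u) p) := by
  have hh : ∀ v, (∀ x ∈ (C.M Y).NS, C.q v x = 0) → (C.M Y).pull (π.rho g0) v = v :=
    (((C.iit Y hY L hL hLL hL0).triv_iff _).1 (htriv g0)).2.1
  have hLA : 0 < C.q L A := by
    rw [C.q_symm]
    exact (C.M Y).ample_nef_q A ((C.M Y).va_ample hA) L hL hL0
  obtain ⟨m, hm, p, hp, hD⟩ := C.disc Y hY L hL hLL hL0 π.rho π.rho_zero π.rho_add htriv
    ((C.iit Y hY L hL hLL hL0).cois ((C.M Y).nef_NS hL) hLL hk) A hA g0 hh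
    (FixComp.iso C.q_symm C.q_add π g0 hg0 ((C.M Y).va_ample hA) hL hLL hLA _)
  exact ⟨m, hm, p, hp, hD⟩

end Pool.Agent.H83.HN
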